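import Mathlib

set_option autoImplicit false

/-!
# The triangle group (2, 3, 5) has at most 60 elements
-/

namespace Pool.Agent.U473.TQ

variable {G : Type*} [Group G]

section words

variable (a c : G)

/-- representatives of the cosets of the powers of `c` -/
def rep : Fin 12 → G :=
  ![1, a, c * a, c ^ 2 * a, c ^ 3 * a, c ^ 4 * a,
    a * c ^ 2 * a, c * (a * c ^ 2 * a), c ^ 2 * (a * c ^ 2 * a), c ^ 3 * (a * c ^ 2 * a),
    c ^ 4 * (a * c ^ 2 * a), a * c ^ 3 * (a * c ^ 2 * a)]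

variable {a c}
variable (ha : a * a = 1) (hc : c ^ 5 = 1) (hac : (a * c) ^ 3 = 1)
include ha hc hac

lemma E1 : a * c * a = c ^ 4 * a * c ^ 4 := by
  have h4 : c ^ 4 = c⁻¹ := by
    rw [eq_inv_iff_mul_eq_one, ← pow_succ]; exact hc
  have ha' : a⁻¹ = a := inv_eq_of_mul_eq_one_left ha
  rw [h4]
  have h : a * c * a * c * a * c = 1 := by
    have := hac
    rw [pow_succ, pow_two] at this
    simpa [mul_assoc] using this
  have h2 : a * c * a = (c * a * c)⁻¹ := by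
    rw [eq_inv_iff_mul_eq_one]
    simpa [mul_assoc] using h
  rw [h2]
  simp [mul_inv_rev, ha', mul_assoc]

lemma E2 : a * c ^ 4 * a = c * a * c := by
  have h4 : c ^ 4 = c⁻¹ := by
    rw [eq_inv_iff_mul_eq_one, ← pow_succ]; exact hc
  have ha' : a⁻¹ = a := inv_eq_of_mul_eq_one_left ha
  have h := E1 ha hc hac
  rw [h4] at h ⊢
  have h2 := congrArg (·⁻¹) h
  simpa [mul_inv_rev, ha', mul_assoc] using h2

lemma EA : a * c ^ 3 * a = c * a * c ^ 2 * a * c := by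
  have h2 := E2 ha hc hac
  calc a * c ^ 3 * a = a * (c ^ 3 * 1) * a := by rw [mul_one]
    _ = a * (c ^ 3 * c ^ 5) * a := by rw [hc]
    _ = a * (c ^ 4 * 1 * c ^ 4) * a := by rw [mul_one, ← pow_add, ← pow_add]
    _ = a * (c ^ 4 * (a * a) * c ^ 4) * a := by rw [ha]
    _ = (a * c ^ 4 * a) * (a * c ^ 4 * a) := by simp only [mul_assoc]
    _ = (c * a * c) * (c * a * c) := by rw [h2]
    _ = c * a * c ^ 2 * a * c := by rw [pow_two]; simp only [mul_assoc]

lemma EB' : a * (c ^ 4 * (a * c ^ 2 * a)) = c ^ 2 * (a * c ^ 2 * a) * c := by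
  have h2 := E2 ha hc hac
  have hA := EA ha hc hac
  calc a * (c ^ 4 * (a * c ^ 2 * a)) = (a * c ^ 4 * a) * c ^ 2 * a := by simp only [mul_assoc]
    _ = (c * a * c) * c ^ 2 * a := by rw [h2]
    _ = c * (a * (c * c ^ 2) * a) := by simp only [mul_assoc]
    _ = c * (a * c ^ 3 * a) := by rw [← pow_succ']
    _ = c * (c * a * c ^ 2 * a * c) := by rw [hA]
    _ = (c * c) * (a * c ^ 2 * a) * c := by simp only [mul_assoc]
    _ = c ^ 2 * (a * c ^ 2 * a) * c := by rw [← pow_two]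

lemma EB : a * (c ^ 2 * (a * c ^ 2 * a)) = c ^ 4 * (a * c ^ 2 * a) * c ^ 4 := by
  have h := EB' ha hc hac
  have h1 : c ^ 4 * (a * c ^ 2 * a) = a * (c ^ 2 * (a * c ^ 2 * a)) * c := by
    calc c ^ 4 * (a * c ^ 2 * a) = (a * a) * (c ^ 4 * (a * c ^ 2 * a)) := by rw [ha, one_mul]
      _ = a * (a * (c ^ 4 * (a * c ^ 2 * a))) := by rw [mul_assoc]
      _ = a * (c ^ 2 * (a * c ^ 2 * a) * c) := by rw [h]
      _ = a * (c ^ 2 * (a * c ^ 2 * a)) * c := by simp only [mul_assoc]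
  rw [h1, mul_assoc _ c, ← pow_succ', hc, mul_one]

lemma EC : c * (a * c ^ 3 * (a * c ^ 2 * a)) = a * c ^ 3 * (a * c ^ 2 * a) * c ^ 4 := by
  have hA := EA ha hc hac
  have h1 : a * c ^ 3 * (a * c ^ 2 * a) = c * (a * c ^ 3 * (a * c ^ 2 * a)) * c := by
    calc a * c ^ 3 * (a * c ^ 2 * a) = (a * c ^ 3 * a) * c ^ 2 * a := by simp only [mul_assoc]
      _ = (c * a * c ^ 2 * a * c) * c ^ 2 * a := by rw [hA]
      _ = c * a * c ^ 2 * (a * (c * c ^ 2) * a) := by simp only [mul_assoc]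
      _ = c * a * c ^ 2 * (a * c ^ 3 * a) := by rw [← pow_succ']
      _ = c * a * c ^ 2 * (c * a * c ^ 2 * a * c) := by rw [hA]
      _ = c * (a * (c ^ 2 * c) * (a * c ^ 2 * a)) * c := by simp only [mul_assoc]
      _ = c * (a * c ^ 3 * (a * c ^ 2 * a)) * c := by rw [← pow_succ]
  calc c * (a * c ^ 3 * (a * c ^ 2 * a)) = c * (a * c ^ 3 * (a * c ^ 2 * a)) * (c * c ^ 4) := by
        rw [← pow_succ', hc, mul_one]
    _ = (c * (a * c ^ 3 * (a * c ^ 2 * a)) * c) * c ^ 4 := by simp only [mul_assoc]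
    _ = a * c ^ 3 * (a * c ^ 2 * a) * c ^ 4 := by rw [← h1]

lemma step_a (i : Fin 12) : ∃ (j : Fin 12) (k : ℕ), a * rep a c i = rep a c j * c ^ k := by
  have h1 := E1 ha hc hac
  have h2 := E2 ha hc hac
  have hA := EA ha hc hac
  have hB' := EB' ha hc hac
  have hB := EB ha hc hac
  fin_cases i
  · exact ⟨1, 0, by simp [rep]⟩
  · exact ⟨0, 0, by simp [rep, ha]⟩
  · exact ⟨5, 4, by simp only [rep]; simpa [mul_assoc] using h1⟩
  · exact ⟨6, 0, by simp [rep, mul_assoc]⟩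
  · exact ⟨7, 1, by simp only [rep]; simpa [mul_assoc] using hA⟩
  · exact ⟨2, 1, by simp only [rep]; simpa [mul_assoc] using h2⟩
  · refine ⟨3, 0, ?_⟩
    show a * (a * c ^ 2 * a) = c ^ 2 * a * c ^ 0
    rw [pow_zero, mul_one, ← mul_assoc, ← mul_assoc, ha, one_mul]
  · refine ⟨4, 4, ?_⟩
    show a * (c * (a * c ^ 2 * a)) = c ^ 3 * a * c ^ 4
    calc a * (c * (a * c ^ 2 * a)) = (a * c * a) * c ^ 2 * a := by simp only [mul_assoc]
      _ = (c ^ 4 * a * c ^ 4) * c ^ 2 * a := by rw [h1]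
      _ = c ^ 4 * a * (c ^ 4 * c ^ 2) * a := by simp only [mul_assoc]
      _ = c ^ 4 * a * (c ^ 5 * c) * a := by rw [← pow_add, ← pow_succ]
      _ = c ^ 4 * (a * c * a) := by rw [hc, one_mul]; simp only [mul_assoc]
      _ = c ^ 4 * (c ^ 4 * a * c ^ 4) := by rw [h1]
      _ = (c ^ 4 * c ^ 4) * a * c ^ 4 := by simp only [mul_assoc]
      _ = (c ^ 5 * c ^ 3) * a * c ^ 4 := by rw [← pow_add, ← pow_add]
      _ = c ^ 3 * a * c ^ 4 := by rw [hc, one_mul]
  · exact ⟨10, 4, hB⟩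
  · exact ⟨11, 0, by simp [rep, mul_assoc]⟩
  · exact ⟨8, 1, by rw [pow_one]; exact hB'⟩
  · refine ⟨9, 0, ?_⟩
    show a * (a * c ^ 3 * (a * c ^ 2 * a)) = c ^ 3 * (a * c ^ 2 * a) * c ^ 0
    rw [pow_zero, mul_one]
    calc a * (a * c ^ 3 * (a * c ^ 2 * a)) = (a * a) * (c ^ 3 * (a * c ^ 2 * a)) := by
          simp only [mul_assoc]
      _ = c ^ 3 * (a * c ^ 2 * a) := by rw [ha, one_mul]

lemma step_c (i : Fin 12) : ∃ (j : Fin 12) (k : ℕ), c * rep a c i = rep a c j * c ^ k := by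
  have hC := EC ha hc hac
  fin_cases i
  · exact ⟨0, 1, by simp [rep]⟩
  · exact ⟨2, 0, by simp [rep]⟩
  · exact ⟨3, 0, by simp [rep, ← mul_assoc, ← pow_two]⟩
  · exact ⟨4, 0, by simp [rep, ← mul_assoc, ← pow_succ']⟩
  · exact ⟨5, 0, by simp [rep, ← mul_assoc, ← pow_succ']⟩
  · exact ⟨1, 0, by simp [rep, ← mul_assoc, ← pow_succ', hc]⟩
  · exact ⟨7, 0, by simp [rep]⟩
  · refine ⟨8, 0, ?_⟩
    show c * (c * (a * c ^ 2 * a)) = c ^ 2 * (a * c ^ 2 * a) * c ^ 0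
    rw [pow_zero, mul_one, ← mul_assoc c c, ← pow_two]
  · refine ⟨9, 0, ?_⟩
    show c * (c ^ 2 * (a * c ^ 2 * a)) = c ^ 3 * (a * c ^ 2 * a) * c ^ 0
    rw [pow_zero, mul_one, ← mul_assoc c, ← pow_succ']
  · refine ⟨10, 0, ?_⟩
    show c * (c ^ 3 * (a * c ^ 2 * a)) = c ^ 4 * (a * c ^ 2 * a) * c ^ 0
    rw [pow_zero, mul_one, ← mul_assoc c, ← pow_succ']
  · refine ⟨6, 0, ?_⟩
    show c * (c ^ 4 * (a * c ^ 2 * a)) = a * c ^ 2 * a * c ^ 0
    rw [pow_zero, mul_one, ← mul_assoc c, ← pow_succ', hc, one_mul]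
  · exact ⟨11, 4, hC⟩

/-- the group generated by `a` and `c` is covered by 60 products -/
lemma mem_range (g : G) (hg : g ∈ Subgroup.closure ({a, c} : Set G)) :
    g ∈ Set.range (fun p : Fin 12 × Fin 5 => rep a c p.1 * c ^ (p.2 : ℕ)) := by
  have key : ∀ (x : G), (∀ i : Fin 12, ∃ (j : Fin 12) (k : ℕ), x * rep a c i = rep a c j * c ^ k) →
      ∀ y ∈ Set.range (fun p : Fin 12 × Fin 5 => rep a c p.1 * c ^ (p.2 : ℕ)),
        x * y ∈ Set.range (fun p : Fin 12 × Fin 5 => rep a c p.1 * c ^ (p.2 : ℕ)) := by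
    rintro x hx _ ⟨⟨i, l⟩, rfl⟩
    obtain ⟨j, k, hjk⟩ := hx i
    refine ⟨(j, ⟨(k + l) % 5, Nat.mod_lt _ (by norm_num)⟩), ?_⟩
    show rep a c j * c ^ ((k + l) % 5) = x * (rep a c i * c ^ (l : ℕ))
    rw [← mul_assoc, hjk, mul_assoc, ← pow_add]
    congr 1
    conv_rhs => rw [← Nat.div_add_mod (k + l) 5, pow_add, pow_mul, hc, one_pow, one_mul]
  have h0 : (1 : G) ∈ Set.range (fun p : Fin 12 × Fin 5 => rep a c p.1 * c ^ (p.2 : ℕ)) :=
    ⟨(0, 0), by simp [rep]⟩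
  have hinv_a : a⁻¹ = a := inv_eq_of_mul_eq_one_left ha
  have hinv_c : c⁻¹ = c * (c * (c * c)) := by
    rw [inv_eq_iff_mul_eq_one]
    have := hc
    rw [pow_succ, pow_succ, pow_succ, pow_two] at this
    simpa [mul_assoc] using this
  induction hg using Subgroup.closure_induction_left with
  | one => exact h0
  | mul_left x hx y hy ih =>
    rcases hx with rfl | hx
    · exact key _ (step_a ha hc hac) y ih
    · rw [Set.mem_singleton_iff] at hx
      subst hx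
      exact key _ (step_c ha hc hac) y ih
  | inv_mul_cancel x hx y hy ih =>
    rcases hx with rfl | hx
    · rw [hinv_a]; exact key _ (step_a ha hc hac) y ih
    · rw [Set.mem_singleton_iff] at hx
      subst hx
      rw [hinv_c, mul_assoc, mul_assoc, mul_assoc]
      have k1 := key _ (step_c ha hc hac)
      exact k1 _ (k1 _ (k1 _ (k1 _ ih)))

theorem card_le (h : Subgroup.closure ({a, c} : Set G) = ⊤) : Nat.card G ≤ 60 := by
  have hsurj : Function.Surjective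
      (fun p : Fin 12 × Fin 5 => rep a c p.1 * c ^ (p.2 : ℕ)) := fun g =>
    mem_range ha hc hac g (by rw [h]; exact Subgroup.mem_top g)
  have : Finite G := Finite.of_surjective _ hsurj
  calc Nat.card G ≤ Nat.card (Fin 12 × Fin 5) := Nat.card_le_card_of_surjective _ hsurj
    _ = 60 := by simp

end words

end Pool.Agent.U473.TQ
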