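import Mathlib
import Pool.Agent.U473.TQ.Bound

set_option autoImplicit false

namespace Pool.Agent.U473.TQ

/-- `n` is admissible for `p`, `q`, `r` and the word `u`. -/
def Admissible (p q r : ℕ) (u : FreeGroup (Fin 3)) (n : ℕ) : Prop :=
  3 ≤ n ∧ ∃ ξ η ζ : alternatingGroup (Fin n),
    Subgroup.closure {ξ, η, ζ} = ⊤ ∧ ξ ^ p = 1 ∧ η ^ q = 1 ∧ ζ ^ r = 1 ∧
    ξ * η * ζ * FreeGroup.lift ![ξ, η, ζ] u = 1

/-- The product `x y z` of the three generators. -/
def xyz : FreeGroup (Fin 3) := FreeGroup.of 0 * FreeGroup.of 1 * FreeGroup.of 2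

/-- the word `(x y z)⁻¹ g⁻¹ (x y z) g` -/
def word (g : FreeGroup (Fin 3)) : FreeGroup (Fin 3) := xyz⁻¹ * g⁻¹ * xyz * g

lemma word_mem (g : FreeGroup (Fin 3)) : word g ∈ commutator (FreeGroup (Fin 3)) := by
  have h := Subgroup.commutator_mem_commutator (Subgroup.mem_top (xyz⁻¹)) (Subgroup.mem_top (g⁻¹))
  rw [commutator_def]
  simpa [word, commutatorElement_def] using h

lemma lift_xyz {G : Type*} [Group G] (a b c : G) :
    FreeGroup.lift ![a, b, c] xyz = a * b * c := by
  simp [xyz]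

/-- if the relations hold, then `x y z` itself is trivial -/
lemma prod_eq_one {G : Type*} [Group G] {a b c : G} {g : FreeGroup (Fin 3)}
    (h : a * b * c * FreeGroup.lift ![a, b, c] (word g) = 1) : a * b * c = 1 := by
  have h1 : FreeGroup.lift ![a, b, c] (word g) =
      (a * b * c)⁻¹ * (FreeGroup.lift ![a, b, c] g)⁻¹ * (a * b * c) * FreeGroup.lift ![a, b, c] g := by
    simp only [word, map_mul, map_inv, lift_xyz]
  rw [h1] at h
  set t := FreeGroup.lift ![a, b, c] g
  have h2 : t⁻¹ * (a * b * c) * t = 1 := by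
    rw [← h]; group
  calc a * b * c = t * (t⁻¹ * (a * b * c) * t) * t⁻¹ := by group
    _ = 1 := by rw [h2]; group

lemma word_eq_one {G : Type*} [Group G] {a b c : G} (g : FreeGroup (Fin 3)) (h : a * b * c = 1) :
    FreeGroup.lift ![a, b, c] (word g) = 1 := by
  simp only [word, map_mul, map_inv, lift_xyz, h]
  group

lemma closure_two {G : Type*} [Group G] {ξ η ζ : G} (h : Subgroup.closure ({ξ, η, ζ} : Set G) = ⊤)
    (h1 : ξ * η * ζ = 1) : Subgroup.closure ({ξ, ξ * η} : Set G) = ⊤ := by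
  rw [eq_top_iff, ← h, Subgroup.closure_le]
  have hx : ξ ∈ Subgroup.closure ({ξ, ξ * η} : Set G) := Subgroup.subset_closure (by simp)
  have hxy : ξ * η ∈ Subgroup.closure ({ξ, ξ * η} : Set G) := Subgroup.subset_closure (by simp)
  rintro w (rfl | rfl | hw)
  · exact hx
  · have := Subgroup.mul_mem _ (Subgroup.inv_mem _ hx) hxy
    simpa using this
  · rw [Set.mem_singleton_iff] at hw
    subst hw
    rw [eq_inv_of_mul_eq_one_right h1] 
    exact Subgroup.inv_mem _ hxy

/-- the group generated by the three elements has at most 60 elements -/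
lemma card_le' {G : Type*} [Group G] {ξ η ζ : G} (h : Subgroup.closure ({ξ, η, ζ} : Set G) = ⊤)
    (h2 : ξ ^ 2 = 1) (h3 : η ^ 3 = 1) (h5 : ζ ^ 5 = 1) (h1 : ξ * η * ζ = 1) : Nat.card G ≤ 60 := by
  have hz : ξ * η = ζ⁻¹ := eq_inv_of_mul_eq_one_left h1
  refine card_le (a := ξ) (c := ξ * η) (by rw [← pow_two]; exact h2) ?_ ?_ (closure_two h h1)
  · rw [hz, inv_pow, h5, inv_one]
  · rw [← mul_assoc, ← pow_two, h2, one_mul, h3]

lemma card_alt {n : ℕ} (hn : 3 ≤ n) : 2 * Nat.card (alternatingGroup (Fin n)) = n.factorial := by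
  have : Nontrivial (Fin n) := Fin.nontrivial_iff_two_le.2 (by omega)
  rw [two_mul_nat_card_alternatingGroup, Nat.card_perm, Nat.card_fin]

/-- if 5 does not divide the order, the group is trivial -/
lemma trivial_of_not_dvd {G : Type*} [Group G] [Finite G] {ξ η ζ : G}
    (h : Subgroup.closure ({ξ, η, ζ} : Set G) = ⊤)
    (h2 : ξ ^ 2 = 1) (h3 : η ^ 3 = 1) (h5 : ζ ^ 5 = 1) (h1 : ξ * η * ζ = 1)
    (hG : Nat.Coprime 5 (Nat.card G)) : Nat.card G = 1 := by
  have hz : ζ = 1 := by
    have h6 : ζ ^ Nat.card G = 1 := pow_card_eq_one'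
    have h7 : orderOf ζ ∣ Nat.gcd 5 (Nat.card G) :=
      Nat.dvd_gcd (orderOf_dvd_of_pow_eq_one h5) (orderOf_dvd_of_pow_eq_one h6)
    rw [hG.gcd_eq_one, Nat.dvd_one, orderOf_eq_one_iff] at h7
    exact h7
  subst hz
  rw [mul_one] at h1
  have hη : η = ξ⁻¹ := eq_inv_of_mul_eq_one_right h1
  have hη2 : η ^ 2 = 1 := by rw [hη, inv_pow, h2, inv_one]
  have hη1 : η = 1 := by
    have : η ^ 3 = η ^ 2 * η := pow_succ η 2
    rw [h3, hη2, one_mul] at this
    exact this.symm
  have hξ1 : ξ = 1 := by rw [hη1, mul_one] at h1; exact h1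
  subst hη1
  subst hξ1
  have : (⊤ : Subgroup G) = ⊥ := by
    rw [← h]; simp
  have hs : Subsingleton G := by
    constructor
    intro x y
    have hx : x ∈ (⊤ : Subgroup G) := Subgroup.mem_top x
    have hy : y ∈ (⊤ : Subgroup G) := Subgroup.mem_top y
    rw [this, Subgroup.mem_bot] at hx hy
    rw [hx, hy]
  exact Nat.card_eq_one_iff_unique.2 ⟨hs, ⟨1⟩⟩

lemma eq_five {g : FreeGroup (Fin 3)} {n : ℕ} (h : Admissible 2 3 5 (word g) n) : n = 5 := by
  obtain ⟨hn, ξ, η, ζ, hcl, h2, h3, h5, hr⟩ := h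
  have h1 := prod_eq_one hr
  have hcard := card_le' hcl h2 h3 h5 h1
  have hfac := card_alt hn
  by_contra hne
  rcases lt_or_ge n 6 with h6 | h6
  · have h34 : n = 3 ∨ n = 4 := by omega
    have hcop : Nat.Coprime 5 (Nat.card (alternatingGroup (Fin n))) := by
      rcases h34 with rfl | rfl
      · have : Nat.card (alternatingGroup (Fin 3)) = 3 := by
          have : (3 : ℕ).factorial = 6 := rfl
          omega
        rw [this]; norm_num
      · have : Nat.card (alternatingGroup (Fin 4)) = 12 := by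
          have : (4 : ℕ).factorial = 24 := rfl
          omega
        rw [this]; norm_num
    have ht := trivial_of_not_dvd hcl h2 h3 h5 h1 hcop
    rw [ht] at hfac
    rcases h34 with rfl | rfl
    · exact absurd hfac (by decide)
    · exact absurd hfac (by decide)
  · have : (6 : ℕ).factorial ≤ n.factorial := Nat.factorial_le h6
    have h720 : (6 : ℕ).factorial = 720 := rfl
    omega

end Pool.Agent.U473.TQ
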