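import Mathlib
import Pool.Agent.U473.TQ.Main

set_option autoImplicit false

namespace Pool.Agent.U473.TQ

open Equiv Equiv.Perm

/-- the permutation `(0 1)(2 3)` -/
def pa : Perm (Fin 5) := c[0, 1] * c[2, 3]
/-- the cycle `(0 1 2 3 4)` -/
def pc : Perm (Fin 5) := c[0, 1, 2, 3, 4]

lemma pa_mem : pa ∈ alternatingGroup (Fin 5) := by
  rw [mem_alternatingGroup]; decide +kernel
lemma pc_mem : pc ∈ alternatingGroup (Fin 5) := by
  rw [mem_alternatingGroup]; decide +kernel

/-- `(0 1)(2 3)` as an element of the alternating group -/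
def ea : alternatingGroup (Fin 5) := ⟨pa, pa_mem⟩
/-- `(0 1 2 3 4)` as an element of the alternating group -/
def ec : alternatingGroup (Fin 5) := ⟨pc, pc_mem⟩

lemma ea2 : ea ^ 2 = 1 := by decide +kernel
lemma eb3 : (ea * ec) ^ 3 = 1 := by decide +kernel
lemma ec5 : (ec⁻¹) ^ 5 = 1 := by decide +kernel
lemma ea1 : ea ≠ 1 := by decide +kernel
lemma eb1 : ea * ec ≠ 1 := by decide +kernel
lemma ec1 : ec⁻¹ ≠ 1 := by decide +kernel
lemma eprod : ea * (ea * ec) * ec⁻¹ = 1 := by decide +kernel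

lemma closure_top : Subgroup.closure ({ea, ea * ec, ec⁻¹} : Set (alternatingGroup (Fin 5))) = ⊤ := by
  set H := Subgroup.closure ({ea, ea * ec, ec⁻¹} : Set (alternatingGroup (Fin 5)))
  have ha : ea ∈ H := Subgroup.subset_closure (by simp)
  have hb : ea * ec ∈ H := Subgroup.subset_closure (by simp)
  have hc : ec⁻¹ ∈ H := Subgroup.subset_closure (by simp)
  have hcardG : Nat.card (alternatingGroup (Fin 5)) = 60 := by
    have := card_alt (n := 5) (by norm_num)
    have h2 : (5 : ℕ).factorial = 120 := rfl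
    omega
  have d2 : 2 ∣ Nat.card H := by
    have : orderOf (⟨ea, ha⟩ : H) = 2 := by
      rw [← Subgroup.orderOf_coe]
      exact orderOf_eq_prime ea2 ea1
    have h := orderOf_dvd_natCard (⟨ea, ha⟩ : H)
    rwa [this] at h
  have d3 : 3 ∣ Nat.card H := by
    have : orderOf (⟨ea * ec, hb⟩ : H) = 3 := by
      rw [← Subgroup.orderOf_coe]
      exact orderOf_eq_prime eb3 eb1
    have h := orderOf_dvd_natCard (⟨ea * ec, hb⟩ : H)
    rwa [this] at h
  have d5 : 5 ∣ Nat.card H := by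
    have : orderOf (⟨ec⁻¹, hc⟩ : H) = 5 := by
      rw [← Subgroup.orderOf_coe]
      have : Fact (Nat.Prime 5) := ⟨by norm_num⟩
      exact orderOf_eq_prime ec5 ec1
    have h := orderOf_dvd_natCard (⟨ec⁻¹, hc⟩ : H)
    rwa [this] at h
  have hmul : Nat.card H * H.index = 60 := by rw [← hcardG]; exact H.card_mul_index
  have hpos : 0 < Nat.card H := Nat.card_pos
  have d30 : 30 ∣ Nat.card H := by omega
  obtain ⟨k, hk⟩ := d30
  have hindex : H.index = 1 ∨ H.index = 2 := by
    have : 30 * (k * H.index) = 30 * 2 := by rw [← mul_assoc, ← hk]; exact hmul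
    have h2 : k * H.index = 2 := by omega
    have : H.index ∣ 2 := ⟨k, by rw [← h2, mul_comm]⟩
    exact (Nat.dvd_prime Nat.prime_two).1 this
  rcases hindex with h1 | h2
  · exact Subgroup.index_eq_one.1 h1
  · have hn : H.Normal := Subgroup.normal_of_index_eq_two h2
    rcases hn.eq_bot_or_eq_top with h | h
    · exfalso
      rw [h, Subgroup.mem_bot] at ha
      exact ea1 ha
    · exact h

lemma five_admissible (g : FreeGroup (Fin 3)) : Admissible 2 3 5 (word g) 5 := by
  refine ⟨by norm_num, ea, ea * ec, ec⁻¹, closure_top, ea2, eb3, ec5, ?_⟩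
  rw [word_eq_one g eprod, mul_one]
  exact eprod

/-- the permutations used to separate the words -/
def tr : Perm ℤ := Equiv.addRight (1 : ℤ)

lemma tr_pow (k : ℕ) (m : ℤ) : (tr ^ k) m = m + k := by
  induction k with
  | zero => simp
  | succ k ih => rw [pow_succ', Perm.mul_apply, ih]; simp [tr]; ring

lemma tr_pow_inv (k : ℕ) (m : ℤ) : ((tr ^ k)⁻¹) m = m - k := by
  rw [Perm.inv_eq_iff_eq, tr_pow]; ring

lemma word_injective : Function.Injective fun k : ℕ => word (FreeGroup.of 0 ^ k) := by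
  intro k l h
  have h1 : ∀ j : ℕ, FreeGroup.lift ![tr, swap (0 : ℤ) 1, 1] (xyz * word (FreeGroup.of 0 ^ j)) =
      (tr ^ j)⁻¹ * (tr * swap 0 1) * tr ^ j := by
    intro j
    have : xyz * word (FreeGroup.of 0 ^ j) = (FreeGroup.of 0 ^ j)⁻¹ * xyz * FreeGroup.of 0 ^ j := by
      simp only [word]; group
    rw [this, map_mul, map_mul, map_inv, map_pow, lift_xyz]
    simp
  have h2 : (tr ^ k)⁻¹ * (tr * swap 0 1) * tr ^ k = (tr ^ l)⁻¹ * (tr * swap 0 1) * tr ^ l := by
    rw [← h1 k, ← h1 l]; simp only at h; rw [h]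
  have ev : ∀ (j : ℕ) (m : ℤ), ((tr ^ j)⁻¹ * (tr * swap 0 1) * tr ^ j : Perm ℤ) m =
      swap (0 : ℤ) 1 (m + j) + 1 - j := by
    intro j m
    rw [Perm.mul_apply, Perm.mul_apply, Perm.mul_apply, tr_pow, tr_pow_inv]
    simp [tr]
  have e1 := ev k (-k)
  have e2 := ev l (-k)
  rw [h2] at e1
  rw [e1] at e2
  have e3 : swap (0 : ℤ) 1 (-(k : ℤ) + k) = 1 := by simp
  rw [e3] at e2
  by_contra hkl
  have hne : (-(k : ℤ) + l) ≠ 0 := by
    intro h0
    apply hkl
    omega
  by_cases h01 : (-(k : ℤ) + l) = 1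
  · rw [h01, swap_apply_right] at e2
    omega
  · rw [swap_apply_of_ne_of_ne hne h01] at e2
    omega

end Pool.Agent.U473.TQ
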